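import Mathlib
import Pool.Agent.Lib.MP_a1cdeb_nt.Defs
import Pool.Agent.Lib.MP_a1cdeb_nt.Main

/-!
`MP_a1cdeb_nt`, Q1: an elliptic curve over `ℚ` of positive rank whose group of rational points is
dense in `E(ℚ_p)` for no prime `p`: the curve `E : y^2 = x^3 - 15 x^2 + x`.
-/

open WeierstrassCurve Pool.Agent.Lib.MP_a1cdeb_nt

namespace Pool.Agent.Results.MP_a1cdeb_nt.EmptyDensitySet

/-- There is an elliptic curve `E` over `ℚ` of positive rank (`E(ℚ)` is infinite, it has a point of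
infinite order), namely `E : y^2 = x^3 - 15 x^2 + x`, such that `E(ℚ)` is dense in `E(ℚ_p)` for no
prime `p`. -/
theorem result : ∃ E : WeierstrassCurve ℚ,
    E = { a₁ := 0, a₂ := -15, a₃ := 0, a₄ := 1, a₆ := 0 } ∧
    E.IsElliptic ∧ Infinite (Affine.Point (E⁄ℚ)) ∧
    (∃ P : Affine.Point (E⁄ℚ), ¬ IsOfFinAddOrder P) ∧ densitySet E = ∅ :=
  ⟨curve, rfl, inferInstance, infinite_points, ⟨basePoint, basePoint_infinite⟩,
    Set.eq_empty_iff_forall_notMem.mpr not_mem_densitySet⟩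

end Pool.Agent.Results.MP_a1cdeb_nt.EmptyDensitySet
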